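import Pool.Agent.Helper10.RR.FinW

/-!
# The section conjecture for superelliptic curves with coefficients in a linear system

Let `k` be a finitely generated field of characteristic zero and let `F` be a finitely generated subfield of `k`.
Let `w_0, …, w_m` be elements of `k` such that one of the quotients `w_i / w_j` is transcendental over `F`; for
example a basis of a Riemann-Roch space `L(D)` of dimension at least two, if `k` is the function field of a
(geometrically integral, projective, normal) curve or variety over `F`.  Let `d ≥ 3`.  We consider all polynomials
`f = ∑_{i ≤ d} a_i x^i` whose coefficients `a_i` are in the `F`-vector space generated by `w_0, …, w_m`.  For all of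
them outside a thin subset (in the sense of Serre) of the affine space of dimension `(d + 1)(m + 1)` over `F`: `f` is
separable of degree `d`, and for all `n` which are not prime to `d` the superelliptic curve `yⁿ = f(x)` over `k`,
and every curve over `k` which maps onto it, has no Galois section; so all these curves satisfy the section
conjecture.

The field `F` is Hilbertian, so the complement of a thin set is big (Zariski dense; for number fields it contains 100
percent of the integral points if they are ordered by height).
-/

universe u

namespace Pool.Agent.Results.MP_e66f84_ag.LinearSystems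

open Polynomial Pool.Agent.Helper91.Sect

/-- Thin sets in the sense of Serre: a set `A` of points of the affine space `F ^ I` is thin if there are a nonzero
polynomial `Ψ` and finitely many polynomials `Q(X)` of degree at least two, whose coefficients are polynomials on
`F ^ I`, and which are irreducible over the field of rational functions on `F ^ I`, such that for all `a ∈ A`
either `Ψ(a) = 0` or one of the polynomials `Q(a, X)` has a root in `F`. -/
def IsThin {F : Type u} [Field F] {I : Type} (A : Set (I → F)) : Prop :=
  ∃ (Ψ : MvPolynomial I F) (S : Finset (MvPolynomial I F)[X]), Ψ ≠ 0 ∧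
    (∀ Q ∈ S, 2 ≤ Q.natDegree ∧ Irreducible (Q.map (algebraMap (MvPolynomial I F)
      (FractionRing (MvPolynomial I F))))) ∧
    ∀ a ∈ A, MvPolynomial.eval a Ψ = 0 ∨ ∃ Q ∈ S, ∃ x : F, eval₂ (MvPolynomial.eval a) x Q = 0

/-- The polynomial `∑_{i ≤ d} a_i x^i` with `a_i = ∑_{e ≤ m} a_(i,e) w_e`. -/
noncomputable def curve {F k : Type u} [Field F] [Field k] [Algebra F k] {d m : ℕ}
    (w : Fin (m + 1) → k) (a : Fin (d + 1) × Fin (m + 1) → F) : k[X] :=
  ∑ i : Fin (d + 1), C (∑ e : Fin (m + 1), algebraMap F k (a (i, e)) * w e) * X ^ (i : ℕ)

/-- For all `n` which are not prime to `d` no curve which maps onto `yⁿ = f(x)` has a Galois section: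
there is no Galois section of `K / k` if `K` contains elements `x` and `y` with `x` transcendental over `k`
and `yⁿ = f(x)`. -/
def NoSections {k : Type u} [Field k] (d : ℕ) (f : k[X]) : Prop :=
  ∀ n : ℕ, ¬ n.Coprime d →
    ∀ (K : Type u) [Field K] [Algebra k K] (x y : K), Transcendental k x → y ^ n = aeval x f →
    IsEmpty (GaloisSection k K)

/-- **The section conjecture for superelliptic curves with coefficients in a linear system.** -/
theorem result {F k : Type u} [Field F] [CharZero F] [Field k] [Algebra F k]
    -- `F` and `k` are finitely generated fields
    (hF : ∃ S : Finset F, Subfield.closure (S : Set F) = ⊤)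
    (hk : ∃ S : Finset k, Subfield.closure (S : Set k) = ⊤)
    -- the quotient of two of the `w_e` is transcendental over `F`
    {m : ℕ} {w : Fin (m + 1) → k} {i j : Fin (m + 1)} (hw : Transcendental F (w i / w j))
    {d : ℕ} (hd : 3 ≤ d) :
    -- the set of the exceptional polynomials is thin
    IsThin {a : Fin (d + 1) × Fin (m + 1) → F |
      ¬ ((curve w a).natDegree = d ∧ (curve w a).Separable ∧ NoSections d (curve w a))} :=
  RR.no_sections_any hF hk hw hd

end Pool.Agent.Results.MP_e66f84_ag.LinearSystems
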