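import Pool.Agent.Helper10.SLS.Fin

/-!
# Superelliptic curves with coefficients in a linear system: sections exist only over extensions of degree divisible by `gcd (n, d)`

Let `k` be a finitely generated field of characteristic zero and let `F` be a finitely generated subfield of `k`.
Let `w_0, …, w_m` be elements of `k` such that one of the quotients `w_i / w_j` is transcendental over `F`; for
example a basis of a Riemann-Roch space `L(D)` of dimension at least two, if `k` is the function field of a
(geometrically integral, projective, normal) curve or variety over `F`.  Let `d ≥ 3`.  We consider all polynomials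
`f = ∑_{i ≤ d} a_i x^i` whose coefficients `a_i` are in the `F`-vector space generated by `w_0, …, w_m`.  For all of
them outside a thin subset (in the sense of Serre) of the affine space of dimension `(d + 1)(m + 1)` over `F`: `f` is
separable of degree `d`, and for all `n` and ALL finite extensions `k'` of `k` the following holds.  If the
superelliptic curve `yⁿ = f(x)` over `k'`, or some curve (or variety) over `k'` which maps onto it, has a Galois
section, then the degree `[k' : k]` is divisible by `gcd (n, d)`.  So all these curves satisfy the section conjecture
over all the finite extensions `k'` of `k` whose degree is not divisible by `gcd (n, d)`; in particular over `k`, if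
`n` is not prime to `d`.

This is the best possible: `yⁿ = f(x)` has a rational point at infinity over the extension of `k` which is generated
by a root of order `gcd (n, d)` of the leading coefficient of `f`, so it has rational points, hence Galois sections,
over extensions of `k` whose degree is any given multiple of `gcd (n, d)`.

The field `F` is Hilbertian, so the complement of a thin set is big (Zariski dense; for number fields it contains 100
percent of the integral points if they are ordered by height).
-/

universe u

namespace Pool.Agent.Results.MP_e66f84_ag.LinearSystemsExt

open Polynomial Pool.Agent.Helper91.Sect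

/-- Thin sets in the sense of Serre: a set `A` of points of the affine space `F ^ I` is thin if there are a nonzero
polynomial `Ψ` and finitely many polynomials `Q(X)` of degree at least two, whose coefficients are polynomials on
`F ^ I`, and which are irreducible over the field of rational functions on `F ^ I`, such that for all `a ∈ A`
either `Ψ(a) = 0` or one of the polynomials `Q(a, X)` has a root in `F`. -/
def IsThin {F : Type u} [Field F] {I : Type} (A : Set (I → F)) : Prop :=
  ∃ (Ψ : MvPolynomial I F) (S : Finset (MvPolynomial I F)[X]), Ψ ≠ 0 ∧
    (∀ Q ∈ S, 2 ≤ Q.natDegree ∧ Irreducible (Q.map (algebraMap (MvPolynomial I F)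
      (FractionRing (MvPolynomial I F))))) ∧
    ∀ a ∈ A, MvPolynomial.eval a Ψ = 0 ∨ ∃ Q ∈ S, ∃ x : F, eval₂ (MvPolynomial.eval a) x Q = 0

/-- The polynomial `∑_{i ≤ d} a_i x^i` with `a_i = ∑_{e ≤ m} a_(i,e) w_e`. -/
noncomputable def curve {F k : Type u} [Field F] [Field k] [Algebra F k] {d m : ℕ}
    (w : Fin (m + 1) → k) (a : Fin (d + 1) × Fin (m + 1) → F) : k[X] :=
  ∑ i : Fin (d + 1), C (∑ e : Fin (m + 1), algebraMap F k (a (i, e)) * w e) * X ^ (i : ℕ)

/-- For all `n` and all finite extensions `k'` of `k`: if a curve over `k'` which maps onto `yⁿ = f(x)` has a Galois
section, then the degree of `k'` over `k` is divisible by `gcd (n, d)`.  Here a curve over `k'` which maps onto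
`yⁿ = f(x)` is given by its function field `K`, which contains elements `x` and `y` with `x` transcendental over `k'`
and `yⁿ = f(x)`; `K` may be any extension field of `k'` with such elements. -/
def SectionDegrees {k : Type u} [Field k] (d : ℕ) (f : k[X]) : Prop :=
  ∀ (n : ℕ) (k' : Type u) [Field k'] [Algebra k k'], FiniteDimensional k k' →
    ∀ (K : Type u) [Field K] [Algebra k' K] (x y : K), Transcendental k' x →
      y ^ n = aeval x (f.map (algebraMap k k')) →
    Nonempty (GaloisSection k' K) →
    Nat.gcd n d ∣ Module.finrank k k'

/-- **The degrees of the extensions over which superelliptic curves with coefficients in a linear system have Galois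
sections are divisible by `gcd (n, d)`.** -/
theorem result {F k : Type u} [Field F] [CharZero F] [Field k] [Algebra F k]
    -- `F` and `k` are finitely generated fields
    (hF : ∃ S : Finset F, Subfield.closure (S : Set F) = ⊤)
    (hk : ∃ S : Finset k, Subfield.closure (S : Set k) = ⊤)
    -- the quotient of two of the `w_e` is transcendental over `F`
    {m : ℕ} {w : Fin (m + 1) → k} {i j : Fin (m + 1)} (hw : Transcendental F (w i / w j))
    {d : ℕ} (hd : 3 ≤ d) :
    -- the set of the exceptional polynomials is thin
    IsThin {a : Fin (d + 1) × Fin (m + 1) → F |
      ¬ ((curve w a).natDegree = d ∧ (curve w a).Separable ∧ SectionDegrees d (curve w a))} := by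
  refine UL.IsThin.mono (Pool.Agent.SLS.no_sections_anyS hF hk hw hd) fun a ha hne => ha ?_
  refine ⟨hne.1, hne.2.1, fun n k' _ _ hfin K _ _ x y hx hxy hsec => ?_⟩
  by_contra hdeg
  exact (hne.2.2 n k' hfin hdeg K x y hx hxy).false hsec.some

end Pool.Agent.Results.MP_e66f84_ag.LinearSystemsExt
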