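import Pool.Agent.Helper10.UL.FinalTheta
import Pool.Agent.Helper10.UL.Reindex
import Pool.Agent.Helper13.HZ.U6

/-!
# The section conjecture for most superelliptic curves over finitely generated fields

Let `d ≥ 3` and `m ≥ 1`.

(1) Let `k` be any finitely generated field of characteristic zero which is not a number field.  Then `k` is a finite
extension of a field `F(t)` of rational functions in one variable over a finitely generated field `F`; fix `F` and
`t`.  We consider all polynomials `f = ∑_{i ≤ d} a_i x^i` whose coefficients `a_i` are polynomials in `t` over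
`F` of degree at most `m`.  For all of them outside a thin subset (in the sense of Serre) of the affine space of
dimension `(d + 1)(m + 1)` over `F`: `f` is separable of degree `d`, and for all `n` which are not prime to `d`
the superelliptic curve `yⁿ = f(x)` over `k`, and every curve over `k` which maps onto it, has no Galois section; so
all these curves satisfy the section conjecture.

(2) Let `r ≥ 2`.  There is one nonzero polynomial `Ψ` with integral coefficients such that for every finitely generated
field `F` of characteristic zero, for `k = F(t₁, …, t_r)` and for every `f = ∑_{i ≤ d} a_i x^i` whose coefficients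
`a_i` are polynomials in `t₁, …, t_r` over `F` of degree at most `m` and whose vector of coefficients is not a
zero of `Ψ`, the conclusion of (1) holds, and moreover for all `n ≥ 2` which do not divide `m` every Galois section of
`yⁿ = f(x)` is geometric.
-/

universe u

namespace Pool.Agent.Helper10.Draft.MostCurves

open Polynomial Pool.Agent.Helper91.Sect Pool.Agent.SC

/-- The exponents of the monomials of degree at most `m` in `r` variables. -/
abbrev Exponents (r m : ℕ) : Type := {p : Fin r → Fin (m + 1) // ∑ i, (p i : ℕ) ≤ m}

/-- The value at `t` of the polynomial with coefficients `a`. -/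
noncomputable def value {F k : Type u} [Field F] [Field k] [Algebra F k] {r m : ℕ} (t : Fin r → k)
    (a : Exponents r m → F) : k :=
  ∑ p : Exponents r m, algebraMap F k (a p) * ∏ i, t i ^ (p.1 i : ℕ)

/-- The polynomial `∑_{i ≤ d} a_i(t) x^i`. -/
noncomputable def curve {F k : Type u} [Field F] [Field k] [Algebra F k] {r m d : ℕ}
    (t : Fin r → k) (a : Fin (d + 1) × Exponents r m → F) : k[X] :=
  ∑ i : Fin (d + 1), C (value t fun p => a (i, p)) * X ^ (i : ℕ)

/-- Thin sets in the sense of Serre: a set `A` of points of the affine space `F ^ I` is thin if there are a nonzero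
polynomial `Ψ` and finitely many polynomials `Q(X)` of degree at least two, whose coefficients are polynomials on
`F ^ I`, and which are irreducible over the field of rational functions on `F ^ I`, such that for all `a ∈ A`
either `Ψ(a) = 0` or one of the polynomials `Q(a, X)` has a root in `F`. -/
def IsThin {F : Type u} [Field F] {I : Type} (A : Set (I → F)) : Prop :=
  ∃ (Ψ : MvPolynomial I F) (S : Finset (MvPolynomial I F)[X]), Ψ ≠ 0 ∧
    (∀ Q ∈ S, 2 ≤ Q.natDegree ∧ Irreducible (Q.map (algebraMap (MvPolynomial I F)
      (FractionRing (MvPolynomial I F))))) ∧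
    ∀ a ∈ A, MvPolynomial.eval a Ψ = 0 ∨ ∃ Q ∈ S, ∃ x : F, eval₂ (MvPolynomial.eval a) x Q = 0

/-- For all `n` which are not prime to `d` no curve which maps onto `yⁿ = f(x)` has a Galois section:
there is no Galois section of `K / k` if `K` contains elements `x` and `y` with `x` transcendental over `k`
and `yⁿ = f(x)`. -/
def NoSections {k : Type u} [Field k] (d : ℕ) (f : k[X]) : Prop :=
  ∀ n : ℕ, ¬ n.Coprime d →
    ∀ (K : Type u) [Field K] [Algebra k K] (x y : K), Transcendental k x → y ^ n = aeval x f →
    IsEmpty (GaloisSection k K)

/-- For all `n ≥ 2` which do not divide `m` the curve `yⁿ = f(x)` satisfies the section conjecture: if `K` is its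
function field, every Galois section of `K / k` is geometric. -/
def SatisfiesSC {k : Type u} [Field k] (m : ℕ) (f : k[X]) : Prop :=
  ∀ n : ℕ, 2 ≤ n → ¬ n ∣ m →
    ∀ (K : Type u) [Field K] [Algebra k K] (x y : K), Transcendental k x →
    IntermediateField.adjoin k {x, y} = ⊤ → y ^ n = aeval x f →
    ∀ s : GaloisSection k K, IsGeometric s

/-- The exponents of the monomials in one variable. -/
def expOne (m : ℕ) : Fin (m + 1) ≃ Exponents 1 m where
  toFun e := ⟨fun _ => e, by
    rw [Fin.sum_univ_one]
    have := e.2
    omega⟩
  invFun p := p.1 0
  left_inv e := rfl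
  right_inv p := by
    apply Subtype.ext
    funext i
    rw [Subsingleton.elim i 0]

theorem value_one {F k : Type u} [Field F] [Field k] [Algebra F k] {m : ℕ} (t : Fin 1 → k)
    (a : Exponents 1 m → F) :
    value t a = ∑ e : Fin (m + 1), algebraMap F k (a (expOne m e)) * t 0 ^ (e : ℕ) := by
  unfold value
  rw [← (expOne m).sum_comp]
  refine Finset.sum_congr rfl fun e _ => ?_
  rw [Fin.prod_univ_one]
  rfl

/-- **The section conjecture for most superelliptic curves over finitely generated fields.** -/
theorem result {d m : ℕ} (hd : 3 ≤ d) (hm : 1 ≤ m) :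
    -- (1) for all finitely generated fields `F` and all finite extensions `k` of `F(t)`
    (∀ (F k : Type u) [Field F] [CharZero F] [Field k] [Algebra F k],
      (∃ S : Finset F, Subfield.closure (S : Set F) = ⊤) →
      ∀ t : Fin 1 → k, AlgebraicIndependent F t →
      FiniteDimensional (IntermediateField.adjoin F (Set.range t)) k →
      -- the set of the exceptional polynomials is thin
      IsThin {a : Fin (d + 1) × Exponents 1 m → F |
        ¬ ((curve t a).natDegree = d ∧ (curve t a).Separable ∧ NoSections d (curve t a))}) ∧
    -- (2) for all `r ≥ 2` there is a nonzero polynomial `Ψ` over the integers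
    ∀ r : ℕ, 2 ≤ r → ∃ Ψ : MvPolynomial (Fin (d + 1) × Exponents r m) ℤ, Ψ ≠ 0 ∧
      -- such that for all finitely generated fields `F` and for `k = F(t₁, …, t_r)`
      ∀ (F k : Type u) [Field F] [CharZero F] [Field k] [Algebra F k],
        (∃ S : Finset F, Subfield.closure (S : Set F) = ⊤) →
        ∀ t : Fin r → k, AlgebraicIndependent F t →
        IntermediateField.adjoin F (Set.range t) = ⊤ →
        -- and for all coefficient vectors `a` over `F` which are not zeros of `Ψ`
        ∀ a : Fin (d + 1) × Exponents r m → F, MvPolynomial.aeval a Ψ ≠ 0 →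
          (curve t a).natDegree = d ∧ (curve t a).Separable ∧
            NoSections d (curve t a) ∧ SatisfiesSC m (curve t a) := by
  constructor
  · intro F k _ _ _ _ hF t ht hfin
    have hr : Set.range t = {t 0} := by
      ext x
      constructor
      · rintro ⟨i, rfl⟩
        rw [Subsingleton.elim i 0]
        rfl
      · rintro rfl
        exact ⟨0, rfl⟩
    rw [hr] at hfin
    have h1 := (UL.no_sections_theta hF (ht.transcendental 0) hd hm).reindex
      ((Equiv.refl (Fin (d + 1))).prodCongr (expOne m))
    refine h1.mono ?_
    intro a ha
    have h2 : UL.curve1 (t 0) (a ∘ ((Equiv.refl (Fin (d + 1))).prodCongr (expOne m))) =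
        curve t a := by
      unfold UL.curve1 curve
      refine Finset.sum_congr rfl fun i _ => ?_
      rw [value_one]
      rfl
    change ¬ UL.HasNoSections d (UL.curve1 (t 0)
      (a ∘ ((Equiv.refl (Fin (d + 1))).prodCongr (expOne m))))
    rw [h2]
    exact ha
  · intro r hr
    obtain ⟨r, rfl⟩ := Nat.exists_eq_add_of_le' hr
    obtain ⟨Ψ, h₁, h₂⟩ := Pool.Agent.HZ.no_sections_F.{u} r hd hm
    refine ⟨Ψ, h₁, fun F k _ _ _ _ hF t ht htop a ha => ?_⟩
    obtain ⟨hA, hB⟩ := h₂ F k hF t ht htop a ha
    exact ⟨hA.1, hA.2.1, hA.2.2, hB.2.2⟩

end Pool.Agent.Helper10.Draft.MostCurves
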