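import Pool.Agent.Helper10.SLG.Fin
import Pool.Agent.Helper10.SLG.Geo

/-!
# One hypersurface for all base fields: Galois sections of superelliptic curves with coefficients in a linear system

Let `F₀ ⊂ k₀` be fields of characteristic zero, `k₀` finitely generated.  Let `w_0, …, w_m` be elements of `k₀` such
that the field generated over `F₀` by the quotients `w_i / w_j` has transcendence degree at least two over `F₀`, that
is, two of the quotients `w_i / w_l` with the same denominator are algebraically independent over `F₀`.  For example
`F₀ = ℚ`, `k₀ = ℚ(t_1, …, t_r)` with `r ≥ 2` and the monomials of degree at most `m ≥ 1`.  Let `d ≥ 3`.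

Then there is a nonzero polynomial `Ψ` over `F₀` such that the following holds for all finitely generated extension
fields `F` of `F₀` and all composites `k = F k₀` of `F` and `k₀` over `F₀` in which `F` and `k₀` are algebraically
free over `F₀` (for `k₀ = F₀(t_1, …, t_r)`: for all `F` and for `k = F(t_1, …, t_r)`).  Let `f = ∑_{i ≤ d} a_i x^i` be
a polynomial whose coefficients `a_i` are in the `F`-vector space generated by `w_0, …, w_m`, with `Ψ(f) ≠ 0`.  Then
`f` is separable of degree `d`, and for all `n` and all finite extensions `k'` of `k`: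

  if the curve `yⁿ = f(x)` over `k'`, or some curve over `k'` with a nonconstant map to it, has a Galois section, then
  the degree of `k'` over `F' k` is divisible by the greatest common divisor of `n` and `d`, where `F'` is the
  algebraic closure of `F` in `k'`.

In particular `gcd(n, d)` divides `[k' : k]`, and there are no sections over `k' = F' k` unless `n` and `d` are
coprime.  The divisibility is the best possible one: the curve has a point at infinity with values in
`k(a_d^(1/g))`, `g = gcd(n, d)`, and for a general `f` this field has degree `g` over `k` and `F` is algebraically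
closed in it.  So the curves `yⁿ = f(x)` and all curves over them satisfy the section conjecture over all `k'` with
this degree not divisible by `g`.  The exceptional hypersurface `Ψ = 0` does not depend on the field `F`: it is the
same one for all number fields `F`, for all function fields of varieties over number fields, …, and it does not depend
on `n`.
-/

universe u

namespace Pool.Agent.Helper10.Draft.SuperellipticUniform

open Polynomial Pool.Agent.Helper91.Sect

/-- The polynomial `∑_{i ≤ d} a_i x^i` with the coefficients `a_i = ∑_{e ≤ m} a_{i,e} w_e`. -/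
noncomputable def curve {F k : Type u} [Field F] [Field k] [Algebra F k] {d m : ℕ}
    (w : Fin (m + 1) → k) (a : Fin (d + 1) × Fin (m + 1) → F) : k[X] :=
  ∑ i : Fin (d + 1), C (∑ e : Fin (m + 1), algebraMap F k (a (i, e)) * w e) * X ^ (i : ℕ)

/-- For all `n`, all finite extensions `k'` of `k` and all curves over `k'` which map onto `yⁿ = f(x)`: if there is a
Galois section, then `gcd n d` divides the degree of `k'` over the field generated by `k` and the elements of `k'`
which are algebraic over `F`.  Here a curve over `k'` which maps onto `yⁿ = f(x)` is given by its function field `K`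
and by elements `x`, `y` of `K` with `x` transcendental over `k'` and `yⁿ = f(x)`; `K` may be any extension field of
`k'`. -/
def SectionDegrees (F : Type u) {k : Type u} [Field F] [Field k] [Algebra F k] (d : ℕ)
    (f : k[X]) : Prop :=
  ∀ (n : ℕ) (k' : Type u) [Field k'] [Algebra k k'] [Algebra F k'] [IsScalarTower F k k'],
    FiniteDimensional k k' →
    ∀ (K : Type u) [Field K] [Algebra k' K] (x y : K), Transcendental k' x →
      y ^ n = aeval x (f.map (algebraMap k k')) → Nonempty (GaloisSection k' K) →
      Nat.gcd n d ∣ Module.finrank (IntermediateField.adjoin k {z : k' | IsAlgebraic F z}) k'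

/-- The field `k` is a composite of `F` and `k₀` over `F₀`, in which `F` and `k₀` are algebraically free over `F₀`:
it is generated by `F` and `k₀`, and elements of `k₀` which are algebraically independent over `F₀` are
algebraically independent over `F`. -/
def FreeComposite (F₀ k₀ F k : Type u) [Field F₀] [Field k₀] [Field F] [Field k] [Algebra F₀ k₀]
    [Algebra F k] [Algebra k₀ k] : Prop :=
  IntermediateField.adjoin F (Set.range (algebraMap k₀ k)) = ⊤ ∧
    ∀ (n : ℕ) (x : Fin n → k₀), AlgebraicIndependent F₀ x →
      AlgebraicIndependent F fun i => algebraMap k₀ k (x i)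

/-- **One hypersurface for all base fields: the degrees of the fields over which a superelliptic curve with
coefficients in a linear system of transcendence degree at least two has a Galois section.** -/
theorem result {F₀ k₀ : Type u} [Field F₀] [CharZero F₀] [Field k₀] [Algebra F₀ k₀]
    -- `k₀` is a finitely generated field
    (hk₀ : ∃ S : Finset k₀, Subfield.closure (S : Set k₀) = ⊤)
    -- two of the quotients of the `w_e` are algebraically independent over `F₀`
    {m : ℕ} {w : Fin (m + 1) → k₀} {i j l : Fin (m + 1)}
    (hw : AlgebraicIndependent F₀ ![w i / w l, w j / w l])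
    {d : ℕ} (hd : 3 ≤ d) :
    -- the exceptional curves are in a hypersurface over `F₀`, for all fields `F`
    ∃ Ψ : MvPolynomial (Fin (d + 1) × Fin (m + 1)) F₀, Ψ ≠ 0 ∧
      ∀ (F k : Type u) [Field F] [Field k] [Algebra F₀ F] [Algebra F₀ k] [Algebra F k] [Algebra k₀ k]
        [IsScalarTower F₀ F k] [IsScalarTower F₀ k₀ k],
        (∃ S : Finset F, Subfield.closure (S : Set F) = ⊤) → FreeComposite F₀ k₀ F k →
        ∀ a : Fin (d + 1) × Fin (m + 1) → F, MvPolynomial.aeval a Ψ ≠ 0 →
          (curve (fun e => algebraMap k₀ k (w e)) a).natDegree = d ∧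
          (curve (fun e => algebraMap k₀ k (w e)) a).Separable ∧
          SectionDegrees F d (curve (fun e => algebraMap k₀ k (w e)) a) := by
  obtain ⟨Ψ₁, hΨ₁, h₁⟩ := Pool.Agent.SLG.hyp_any (F₀ := F₀) hk₀ hw hd
  obtain ⟨Ψ₂, hΨ₂, h₂⟩ := Pool.Agent.SLG.geo (Pool.Agent.SLG.hyp_any (F₀ := F₀) hk₀ hw hd)
  refine ⟨Ψ₁ * Ψ₂, mul_ne_zero hΨ₁ hΨ₂, ?_⟩
  intro F k _ _ _ _ _ _ _ _ hF hfree a ha
  rw [map_mul] at ha
  have h3 : Pool.Agent.SLS.HasNoSectionsS d (curve (fun e => algebraMap k₀ k (w e)) a) := by
    by_contra hne
    exact left_ne_zero_of_mul ha (h₁ F k hF hfree.1 (fun {n x} hx => hfree.2 n x hx) a hne)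
  refine ⟨h3.1, h3.2.1, ?_⟩
  intro n k' _ _ _ _ hfin K _ _ x y hx hxy hsec
  obtain ⟨F'', _, _, _, φ, hk₀'', hφ, h4⟩ := h₂ F k hF hfree.1 (fun {n x} hx => hfree.2 n x hx) a
    (right_ne_zero_of_mul ha) k' hfin
  rw [not_not] at h4
  by_contra hdeg
  refine (not_isEmpty_iff.2 hsec) (h4.2.2 n k' inferInstance hdeg K x y hx ?_)
  rw [hxy]
  congr 1
  have h5 : _root_.RR.curveW
      (⇑(algebraMap k₀ (IntermediateField.adjoin k {z : k' | IsAlgebraic F z})) ∘ w) (φ ∘ a) =
      (curve (fun e => algebraMap k₀ k (w e)) a).map (algebraMap k _) := by
    unfold _root_.RR.curveW curve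
    rw [Polynomial.map_sum]
    refine Finset.sum_congr rfl fun i _ => ?_
    have h6 : algebraMap k (IntermediateField.adjoin k {z : k' | IsAlgebraic F z})
        (∑ e, algebraMap F k (a (i, e)) * algebraMap k₀ k (w e)) =
        ∑ e, algebraMap F'' _ ((φ ∘ a) (i, e)) * (⇑(algebraMap k₀ _) ∘ w) e := by
      rw [map_sum]
      refine Finset.sum_congr rfl fun e _ => ?_
      rw [map_mul, ← hφ, ← hk₀'']
      rfl
    rw [Polynomial.map_mul, Polynomial.map_pow, map_X, map_C, h6]
  rw [h5, Polynomial.map_map, ← IsScalarTower.algebraMap_eq]

end Pool.Agent.Helper10.Draft.SuperellipticUniform
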